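import Mathlib
import Pool.Agent.H16.Grd

set_option autoImplicit false

namespace Pool.Agent.Results.MP_ac85ec_co.Q1No

open Pool.Agent.H16.Grd

theorem result : ¬ ∃ C : ℝ, ∀ᶠ n : ℕ in Filter.atTop,
    |Real.logb 2 (a 4 n) - (n : ℝ) ^ 2 / 4 - 5 / 4 * n| ≤ C * Real.log n :=
  main

end Pool.Agent.Results.MP_ac85ec_co.Q1No
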